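import Pool.Agent.Y404.GccBounds

/-! # `ν(G) + ν(Ḡ) ≥ |G| - 2` for regular, nearly regular and split graphs and forests, and
`ν(G) + ν(Ḡ) ≥ (2/3)(|G| - 1)` for all graphs -/

set_option autoImplicit false

namespace Pool.Agent.Results.MP_23961f_co.RegularAndSplit

open Pool.Agent.Y404.GccSap Pool.Agent.Y404.GccBounds

/-- `k` is the nullity of a real positive semidefinite matrix whose off-diagonal nonzero pattern is
exactly the edge set of `G` and which has the Strong Arnold Property: a symmetric `X` which is zero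
on the diagonal and on the edges of `G` and satisfies `A X = 0` is zero. -/
def IsSapNullity {n : ℕ} (G : SimpleGraph (Fin n)) (k : ℕ) : Prop :=
  ∃ A : Matrix (Fin n) (Fin n) ℝ, A.PosSemidef ∧
    (∀ i j : Fin n, i ≠ j → (A i j ≠ 0 ↔ G.Adj i j)) ∧
    (∀ X : Matrix (Fin n) (Fin n) ℝ, X.IsSymm →
      (∀ i j : Fin n, (i = j ∨ G.Adj i j) → X i j = 0) → A * X = 0 → X = 0) ∧
    A.rank + k = n

/-- The Colin de Verdière-type parameter `ν(G)`: the largest such nullity. -/
noncomputable def nu {n : ℕ} (G : SimpleGraph (Fin n)) : ℕ := sSup {k : ℕ | IsSapNullity G k}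

theorem bdd {n : ℕ} (G : SimpleGraph (Fin n)) : BddAbove {k : ℕ | IsSapNullity G k} := by
  refine ⟨n, ?_⟩
  rintro k ⟨A, -, -, -, h⟩
  omega

theorem le_nu {n : ℕ} (G : SimpleGraph (Fin n)) (r : ℕ) (h : HasSap G r) : n ≤ nu G + r := by
  obtain ⟨A, h1, h2, h3, h4⟩ := h
  have h5 : A.rank ≤ n := by
    have := A.rank_le_card_width
    rwa [Fintype.card_fin] at this
  have h6 : n - A.rank ≤ nu G := le_csSup (bdd G) ⟨A, h1, h2, h3, by omega⟩
  omega

open Classical in
theorem core_sum {n : ℕ} (G : SimpleGraph (Fin n)) (A B : Finset (Fin n)) (d e : ℕ)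
    (hA : A.Nonempty) (hB : B.Nonempty)
    (h1 : ∀ x ∈ A, d ≤ (A.filter fun y => G.Adj x y).card)
    (h2 : ∀ x ∈ B, e ≤ (B.filter fun y => Gᶜ.Adj x y).card) :
    d + e ≤ nu G + nu Gᶜ := by
  have h3 := core_sap (Fin n) G A d hA (by intro x hx; convert h1 x hx)
  have h4 := core_sap (Fin n) Gᶜ B e hB (by intro x hx; convert h2 x hx)
  rw [Fintype.card_fin] at h3 h4
  have h5 := le_nu G _ h3.1
  have h6 := le_nu Gᶜ _ h4.1
  have h7 := h3.2
  have h8 := h4.2
  omega

open Classical in
theorem criterion {n : ℕ} (G : SimpleGraph (Fin n)) (A B : Finset (Fin n)) (D : ℕ)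
    (hA : A.Nonempty) (hB : B.Nonempty)
    (h1 : ∀ x ∈ B, (B.filter fun y => G.Adj x y).card ≤ D)
    (h2 : ∀ x ∈ A, D + (n - B.card) ≤ (A.filter fun y => G.Adj x y).card + 1) :
    n ≤ nu G + nu Gᶜ + 2 := by
  have h3 := core_sum G A B (D + (n - B.card) - 1) (B.card - 1 - D) hA hB
    (by intro x hx; have := h2 x hx; omega) (by
      intro x hx
      have h4 : (B.filter fun y => Gᶜ.Adj x y) = (B.erase x) \ (B.filter fun y => G.Adj x y) := by
        ext y
        simp only [Finset.mem_filter, SimpleGraph.compl_adj, Finset.mem_sdiff, Finset.mem_erase]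
        constructor
        · rintro ⟨hy, hne, hadj⟩
          exact ⟨⟨fun h => hne h.symm, hy⟩, fun h => hadj h.2⟩
        · rintro ⟨⟨hne, hy⟩, h⟩
          exact ⟨hy, fun h' => hne h'.symm, fun h' => h ⟨hy, h'⟩⟩
      rw [h4]
      have h5 := Finset.le_card_sdiff (B.filter fun y => G.Adj x y) (B.erase x)
      rw [Finset.card_erase_of_mem hx] at h5
      have h6 := h1 x hx
      omega)
  have h7 : B.card ≤ n := by
    have := Finset.card_le_univ B
    rwa [Fintype.card_fin] at this
  have h8 : 0 < B.card := Finset.card_pos.2 hB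
  omega

open Classical in
theorem degenerate {n : ℕ} (G : SimpleGraph (Fin n)) (a : ℕ)
    (ha : ∀ S : Finset (Fin n), S.Nonempty → ∃ x ∈ S, (S.filter fun y => G.Adj x y).card ≤ a) :
    n ≤ nu G + nu Gᶜ + 1 + a := by
  rcases Nat.eq_zero_or_pos n with rfl | hn
  · omega
  have hP : ∃ a : ℕ, ∀ S : Finset (Fin n), S.Nonempty →
      ∃ x ∈ S, (S.filter fun y => G.Adj x y).card ≤ a := ⟨a, ha⟩
  have h0 : Nat.find hP ≤ a := Nat.find_min' hP ha
  have hcore : ∃ S : Finset (Fin n), S.Nonempty ∧
      ∀ x ∈ S, Nat.find hP ≤ (S.filter fun y => G.Adj x y).card := by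
    rcases Nat.eq_zero_or_pos (Nat.find hP) with h0 | h0
    · refine ⟨Finset.univ, ⟨⟨0, hn⟩, Finset.mem_univ _⟩, fun x _ => ?_⟩
      rw [h0]
      exact Nat.zero_le _
    · have h1 := Nat.find_min hP (m := Nat.find hP - 1) (by omega)
      push Not at h1
      obtain ⟨S, hS, h2⟩ := h1
      refine ⟨S, hS, fun x hx => ?_⟩
      have := h2 x hx
      omega
  obtain ⟨S, hS, hd⟩ := hcore
  have h3 := core_sap (Fin n) G S (Nat.find hP) hS (by intro x hx; convert hd x hx)
  have h4 := degen_compl_sap (Fin n) G (Nat.find hP) (by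
    have := Nat.find_spec hP
    convert this)
  rw [Fintype.card_fin] at h3
  have h5 := le_nu G _ h3.1
  have h6 := le_nu Gᶜ _ h4
  have h7 := h3.2
  omega

open Classical in
/-- (1) If `G[A]` has minimum degree at least `d` and `Ḡ[B]` has minimum degree at least `e`, for
nonempty vertex sets `A, B`, then `ν(G) + ν(Ḡ) ≥ d + e`.
(2) `ν(G) + ν(Ḡ) ≥ |G| - 2` whenever there are nonempty vertex sets `A, B` such that
`δ(G[A]) ≥ Δ(G[B]) + |V \ B| - 1`.
(3) `ν(G) + ν(Ḡ) ≥ |G| - 1 - (Δ(G) - δ(G))`; so it is at least `|G| - 1` for regular graphs and at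
least `|G| - 2` for graphs with `Δ(G) ≤ δ(G) + 1`.
(4) `ν(G) + ν(Ḡ) ≥ |G| - 2` for all split graphs (`V` is the union of a clique `K` and an
independent set).
(5) If `G` is `a`-degenerate (each nonempty vertex set `S` contains a vertex with at most `a`
neighbours in `S`) then `ν(G) + ν(Ḡ) ≥ |G| - 1 - a`; so it is at least `|G| - 2` for forests.
(6) For all graphs with at least one vertex `2 ν(G) + ν(Ḡ) ≥ |G| - 1`, hence
`ν(G) + ν(Ḡ) ≥ (2/3)(|G| - 1)`. -/
theorem result :
    (∀ (n : ℕ) (G : SimpleGraph (Fin n)) (A B : Finset (Fin n)) (d e : ℕ),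
      A.Nonempty → B.Nonempty →
      (∀ x ∈ A, d ≤ (A.filter fun y => G.Adj x y).card) →
      (∀ x ∈ B, e ≤ (B.filter fun y => Gᶜ.Adj x y).card) →
      d + e ≤ nu G + nu Gᶜ) ∧
    (∀ (n : ℕ) (G : SimpleGraph (Fin n)) (A B : Finset (Fin n)) (D : ℕ),
      A.Nonempty → B.Nonempty →
      (∀ x ∈ B, (B.filter fun y => G.Adj x y).card ≤ D) →
      (∀ x ∈ A, D + (n - B.card) ≤ (A.filter fun y => G.Adj x y).card + 1) →
      n ≤ nu G + nu Gᶜ + 2) ∧
    (∀ (n : ℕ) (G : SimpleGraph (Fin n)), 1 ≤ n →
      n + G.minDegree ≤ nu G + nu Gᶜ + 1 + G.maxDegree) ∧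
    (∀ (n : ℕ) (G : SimpleGraph (Fin n)) (K : Finset (Fin n)),
      (∀ x ∈ K, ∀ y ∈ K, x ≠ y → G.Adj x y) → (∀ x, x ∉ K → ∀ y, y ∉ K → ¬ G.Adj x y) →
      n ≤ nu G + nu Gᶜ + 2) ∧
    (∀ (n : ℕ) (G : SimpleGraph (Fin n)) (a : ℕ),
      (∀ S : Finset (Fin n), S.Nonempty → ∃ x ∈ S, (S.filter fun y => G.Adj x y).card ≤ a) →
      n ≤ nu G + nu Gᶜ + 1 + a) ∧
    (∀ (n : ℕ) (G : SimpleGraph (Fin n)),
      n ≤ 2 * nu G + nu Gᶜ + 1 ∧ 2 * n ≤ 3 * (nu G + nu Gᶜ) + 2) := by
  refine ⟨fun n G A B d e hA hB h1 h2 => core_sum G A B d e hA hB h1 h2,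
    fun n G A B D hA hB h1 h2 => criterion G A B D hA hB h1 h2, ?_, ?_,
    fun n G a ha => degenerate G a ha, ?_⟩
  · intro n G hn
    have : Nonempty (Fin n) := ⟨⟨0, hn⟩⟩
    have h1 := le_nu G _ (sap_delta G)
    have h2 := le_nu Gᶜ _ (sap_delta Gᶜ)
    have h3 := minDegree_compl G
    have h4 := G.minDegree_lt_card
    have h5 := Gᶜ.minDegree_lt_card
    rw [Fintype.card_fin] at h1 h2 h3 h4 h5
    have e1 : @SimpleGraph.minDegree _ G _ (fun a b => Classical.propDecidable _) =
        G.minDegree := by congr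
    have e2 : @SimpleGraph.minDegree _ Gᶜ _ (fun a b => Classical.propDecidable _) =
        Gᶜ.minDegree := by congr
    rw [e1] at h1
    rw [e2] at h2
    omega
  · intro n G K hK hI
    rcases Nat.eq_zero_or_pos n with rfl | hn
    · omega
    have h0 : Fintype.card (Fin n) = n := Fintype.card_fin n
    by_cases hKne : K.Nonempty
    · by_cases hBne : (Finset.univ \ K).Nonempty
      · apply criterion G K (Finset.univ \ K) 0 hKne hBne
        · intro x hx
          rw [Finset.mem_sdiff] at hx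
          rw [Nat.le_zero, Finset.card_eq_zero, Finset.filter_eq_empty_iff]
          intro y hy
          rw [Finset.mem_sdiff] at hy
          exact hI x hx.2 y hy.2
        · intro x hx
          have h1 : (K.filter fun y => G.Adj x y) = K.erase x := by
            ext y
            rw [Finset.mem_filter, Finset.mem_erase]
            constructor
            · rintro ⟨hy, hadj⟩
              exact ⟨hadj.ne', hy⟩
            · rintro ⟨hne, hy⟩
              exact ⟨hy, hK x hx y hy hne.symm⟩
          rw [h1, Finset.card_erase_of_mem hx, Finset.card_sdiff_of_subset (Finset.subset_univ K),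
            Finset.card_univ, h0]
          have h2 : K.card ≤ n := by
            have := Finset.card_le_univ K
            rwa [h0] at this
          have h3 : 0 < K.card := Finset.card_pos.2 hKne
          omega
      · rw [Finset.not_nonempty_iff_eq_empty, Finset.sdiff_eq_empty_iff_subset] at hBne
        have hall : ∀ x : Fin n, x ∈ K := fun x => hBne (Finset.mem_univ x)
        apply criterion G Finset.univ {⟨0, hn⟩} 0 ⟨⟨0, hn⟩, Finset.mem_univ _⟩
          (Finset.singleton_nonempty _)
        · intro x hx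
          rw [Finset.mem_singleton] at hx
          rw [Nat.le_zero, Finset.card_eq_zero, Finset.filter_eq_empty_iff]
          intro y hy
          rw [Finset.mem_singleton] at hy
          rw [hx, hy]
          exact G.irrefl
        · intro x _
          have h1 : (Finset.univ.filter fun y => G.Adj x y) = Finset.univ.erase x := by
            ext y
            rw [Finset.mem_filter, Finset.mem_erase]
            constructor
            · rintro ⟨hy, hadj⟩
              exact ⟨hadj.ne', hy⟩
            · rintro ⟨hne, hy⟩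
              exact ⟨hy, hK x (hall x) y (hall y) hne.symm⟩
          rw [h1, Finset.card_erase_of_mem (Finset.mem_univ x), Finset.card_univ, h0,
            Finset.card_singleton]
          omega
    · rw [Finset.not_nonempty_iff_eq_empty] at hKne
      subst hKne
      apply criterion G Finset.univ Finset.univ 0 ⟨⟨0, hn⟩, Finset.mem_univ _⟩
        ⟨⟨0, hn⟩, Finset.mem_univ _⟩
      · intro x _
        rw [Nat.le_zero, Finset.card_eq_zero, Finset.filter_eq_empty_iff]
        intro y _
        exact hI x (Finset.notMem_empty x) y (Finset.notMem_empty y)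
      · intro x _
        rw [Finset.card_univ, h0]
        omega
  · have key : ∀ (n : ℕ) (G : SimpleGraph (Fin n)), n ≤ 2 * nu G + nu Gᶜ + 1 := by
      intro n G
      obtain ⟨a, h0, h1, h2⟩ := sap_pair G
      rw [Fintype.card_fin] at h0 h1
      have h3 := le_nu G _ h1
      have h4 := le_nu Gᶜ _ h2
      omega
    intro n G
    have h1 := key n G
    have h2 := key n Gᶜ
    rw [compl_compl] at h2
    exact ⟨h1, by omega⟩

end Pool.Agent.Results.MP_23961f_co.RegularAndSplit
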